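import Pool.Agent.Helper20.RL.St2

/-!
# Project RL (MP_cb927e_an): module LPB
-/

set_option autoImplicit false

open MeasureTheory Set Filter Topology
open scoped ENNReal RealInnerProductSpace

namespace Pool.Agent.Helper16.RL

open Pool.Agent.Helper68.LM (Pl BB Bd Av HL ft fm DQ)
open Pool.Agent.Helper20.RG Pool.Agent.Helper20.RL

theorem hLPB (hLLM : StLLM) (hLUF : StLUF) : StLPB := by
  intro κ _ hκ u b l K A σ s m F D η hu hb hl hM hA hS hm hF hC hD hDη hη
  have hu1 : 1 ≤ u := by omega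
  have hD0 : 0 < D := lt_of_lt_of_le (by positivity) hD
  have hη0 : 0 < η := by linarith
  obtain ⟨-, -, hlad, -⟩ := hLLM u hu1
  have hl2 : lad u (16 * u * b + l + 1) = (om u b l : ℤ) := hlad b l hl.le
  have hom : (om u b 0 : ℤ) ≤ lad u (16 * u * b + l + 1) := by
    rw [hl2]
    have : om u b 0 ≤ om u b l := by
      unfold om
      exact Nat.mul_le_mul_left _ (by omega)
    exact_mod_cast this
  have hom0 : (0 : ℤ) ≤ lad u (16 * u * b + l + 1) := by
    rw [hl2]
    exact Int.natCast_nonneg _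
  have hL := fun j : ℕ => (hLUF F (s j) (m j) u η (16 * u * b + l + 1) K hu1 hη0 (by omega)).2
  choose Af Bf h1 h2 using hL
  refine hκ u b A σ s F D (η / 2) (fun j => ⋃ k ∈ Ico (0 : ℤ) K,
    UU F (s j) (m j) u η (16 * u * b + l + 1) k) Af Bf hu hb hA hS hF hC hD (by linarith)
    (by linarith) ?_
  intro j hj
  refine ⟨h1 j, fun z hz => ?_⟩
  obtain ⟨k, hk, hA', hB'⟩ := h2 j z hz
  have hk0 : (0 : ℤ) ≤ k := hk.1
  have hmj : ((u : ℤ)) ≤ (m j : ℤ) + 1 := by exact_mod_cast hm j hj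
  have hu2 : (2 : ℤ) ≤ (u : ℤ) := by exact_mod_cast hu
  rw [hA', hB']
  constructor
  · linarith
  · linarith

end Pool.Agent.Helper16.RL
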